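import Pool.Agent.Run7.h568.HB.V

/-!
# Horofunctions of the reversed Thurston metric: the once-punctured torus

`Tor` is the Teichmueller space of the once-punctured torus (traces of the simple closed curves).
The length function extends to a norm `N` on `ℝ²`, the space of measured laminations (up to sign);
the horofunctions of the reversed Thurston metric are the functions `log (N m) - log (N_b m)`.
`Sph` is the Teichmueller space of the four-punctured sphere; it is identified with `Tor`, and all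
lengths are doubled, so that the distances agree.
-/

open Filter Topology Run7.h568.HB Run7.h568.HB.Tor

theorem Pool.Agent.Results.MP_35beee_gt.OncePuncturedTorus.result :
    (∀ Z : Tor, Continuous Z.N ∧ (∀ x, x ≠ 0 → 0 < Z.N x) ∧
      (∀ x y, Z.N (x + y) ≤ Z.N x + Z.N y) ∧ (∀ (s : ℝ) x, Z.N (s • x) = |s| * Z.N x) ∧
      ∀ w w', Basis w w' → Z.N (rv w) = Z.len w) ∧
    (∀ (b : Tor) (X : ℕ → Tor), Tendsto X atTop (cocompact Tor) → ∀ ψ : Tor → ℝ,
      (∀ Z, Tendsto (fun n => dTh (X n) Z - dTh (X n) b) atTop (𝓝 (ψ Z))) →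
      ∃ m : ℝ × ℝ, m ≠ 0 ∧ ∀ Z, ψ Z = Real.log (Z.N m / b.N m)) ∧
    (∀ (b : Tor) (m : ℝ × ℝ), m ≠ 0 → ∃ X : ℕ → Tor, Tendsto X atTop (cocompact Tor) ∧
      ∀ C : Set Tor, IsCompact C → TendstoUniformlyOn (fun n Z => dTh (X n) Z - dTh (X n) b)
        (fun Z => Real.log (Z.N m / b.N m)) atTop C) ∧
    (∀ (b : Tor) (m m' : ℝ × ℝ), m ≠ 0 → m' ≠ 0 →
      (∀ Z : Tor, Real.log (Z.N m / b.N m) = Real.log (Z.N m' / b.N m')) →
      ∃ s : ℝ, s ≠ 0 ∧ m' = s • m) ∧
    (∀ (b X : Tor) (m : ℝ × ℝ), m ≠ 0 →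
      ∃ Z, dTh X Z - dTh X b ≠ Real.log (Z.N m / b.N m)) ∧
    (∃ e : Tor ≃ₜ Sph, ∀ (X : Tor) (w w' : ℤ × ℤ), Basis w w' →
      (e X).len w = 2 * X.len w) := by
  refine ⟨fun Z => ⟨Z.N_cont, fun x hx => Z.N_pos hx, Z.N_add, Z.N_smul, fun w w' h => Z.N_rv h⟩,
    fun b X hX ψ hψ => limits b X hX ψ hψ, fun b m hm => ?_, fun b m m' hm hm' h => ?_,
    fun b X m hm => not_inner b X hm, equiv, fun X w w' h => len_double X h⟩
  · obtain ⟨X, ⟨c⟩⟩ := exists_conv b hm
    exact ⟨X, tendsto_K.2 c.hK, fun C hC => unif b X _ (fun Z => c.lim Z b) C hC⟩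
  · have h0 := inj b hm hm' h
    obtain ⟨y, hy⟩ := exists_compl hm
    have e := detR_decomp hy m'
    rw [h0, zero_smul, add_zero] at e
    refine ⟨detR m' y, ?_, e⟩
    intro hs
    rw [hs, zero_smul] at e
    exact hm' e
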